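import Pool.Agent.K3h88.VR.Stm

/-! Project VR, brick RAND: a random set and the alteration. -/

set_option autoImplicit false

namespace Pool.Agent.K3h66.VR

open Finset Filter Pool.Agent.K3h88.VR

/-- the nonzero elements of `V` -/
noncomputable def nz {n : ℕ} (V : Submodule (ZMod 2) (E n)) : Finset (E n) := by
  classical
  exact univ.filter (fun x => x ∈ V ∧ x ≠ 0)

theorem mem_nz {n : ℕ} {V : Submodule (ZMod 2) (E n)} {x : E n} :
    x ∈ nz V ↔ x ∈ V ∧ x ≠ 0 := by
  unfold nz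
  simp

theorem card_nz {n d : ℕ} (V : Submodule (ZMod 2) (E n)) (hV : Module.finrank (ZMod 2) V = d) :
    (nz V).card = 2 ^ d - 1 := by
  classical
  have h1 : Fintype.card V = 2 ^ d := by
    rw [Module.card_eq_pow_finrank (K := ZMod 2) (V := V), ZMod.card, hV]
  have h2 : nz V = (univ.filter (fun x : E n => x ∈ V)).erase 0 := by
    ext x
    rw [mem_nz, mem_erase, mem_filter]
    simp only [mem_univ, true_and, ne_eq]
    exact and_comm
  have h3 : (univ.filter (fun x : E n => x ∈ V)).card = 2 ^ d := by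
    rw [← h1, ← Fintype.card_subtype]
  rw [h2, card_erase_of_mem (by simp), h3]

theorem t_RAND (h1 : S_TAIL) (h2 : S_FAM) (h3 : S_TRI) (h4 : S_ALT) (h5 : S_SUB) : S_RAND := by
  classical
  intro n d q k hq hlt
  have : Finite (Submodule (ZMod 2) (E n)) :=
    Finite.of_injective (fun V : Submodule (ZMod 2) (E n) => (V : Set (E n))) SetLike.coe_injective
  let 𝒱 : Type := {V : Submodule (ZMod 2) (E n) // Module.finrank (ZMod 2) V = d}
  have : Finite 𝒱 := Subtype.finite
  have : Fintype 𝒱 := Fintype.ofFinite 𝒱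
  let P1 : 𝒱 → (E n → Fin q) → Prop := fun V f =>
    ((nz V.1).filter (fun x => (f x : ℕ) = 0)).card ≤ 3 * k
  let P2 : 𝒱 → (E n → Fin q) → Prop := fun V f =>
    ∃ S ⊆ tri V.1, S.card = k + 1 ∧ PD S ∧ ∀ T ∈ S, ∀ x ∈ T, (f x : ℕ) = 0
  have hq0 : (0 : ℝ) < q := by exact_mod_cast hq
  have key : ∃ f : E n → Fin q, ∀ V : 𝒱, ¬ P1 V f ∧ ¬ P2 V f := by
    by_contra hcon
    have hcon' : ∀ f : E n → Fin q, ∃ V : 𝒱, P1 V f ∨ P2 V f := by
      intro f
      by_contra hf
      exact hcon ⟨f, fun V => ⟨fun h => hf ⟨V, Or.inl h⟩, fun h => hf ⟨V, Or.inr h⟩⟩⟩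
    have hsub : (univ : Finset (E n → Fin q)) ⊆
        (univ : Finset 𝒱).biUnion (fun V => univ.filter (P1 V) ∪ univ.filter (P2 V)) := by
      intro f _
      obtain ⟨V, hV⟩ := hcon' f
      rw [mem_biUnion]
      refine ⟨V, mem_univ _, ?_⟩
      rw [mem_union, mem_filter, mem_filter]
      rcases hV with h | h
      · exact Or.inl ⟨mem_univ _, h⟩
      · exact Or.inr ⟨mem_univ _, h⟩
    have hcard := (card_le_card hsub).trans card_biUnion_le
    have hF : (univ : Finset (E n → Fin q)).card = q ^ Fintype.card (E n) := by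
      rw [card_univ, Fintype.card_fun, Fintype.card_fin]
    rw [hF] at hcard
    have hb : ∀ V : 𝒱, ((univ.filter (P1 V) ∪ univ.filter (P2 V)).card : ℝ) ≤
        (2 ^ (3 * k) * (1 - 1 / (2 * (q : ℝ))) ^ (2 ^ d - 1) +
          ((2 ^ (d + n)).choose (k + 1) : ℕ) / (q : ℝ) ^ (3 * (k + 1))) *
          (q : ℝ) ^ Fintype.card (E n) := by
      intro V
      have e1 : ((univ.filter (P1 V)).card : ℝ) ≤
          2 ^ (3 * k) * (1 - 1 / (2 * (q : ℝ))) ^ (2 ^ d - 1) * (q : ℝ) ^ Fintype.card (E n) := by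
        have h := h1 (E n) (nz V.1) q (3 * k) hq
        rw [card_nz V.1 V.2, Nat.card_eq_fintype_card, Fintype.card_subtype] at h
        convert h using 2
      have e2 : ((univ.filter (P2 V)).card : ℝ) ≤
          ((2 ^ (d + n)).choose (k + 1) : ℕ) / (q : ℝ) ^ (3 * (k + 1)) *
            (q : ℝ) ^ Fintype.card (E n) := by
        have ht := h3 n d V.1 V.2
        have h := h2 (E n) (tri V.1) q (k + 1) hq (fun T hT => (ht.2 T hT).1)
        rw [Nat.card_eq_fintype_card, Fintype.card_subtype] at h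
        have hm : (((tri V.1).card.choose (k + 1) : ℕ) : ℝ) ≤
            (((2 ^ (d + n)).choose (k + 1) : ℕ) : ℝ) := by
          exact_mod_cast Nat.choose_le_choose (k + 1) ht.1
        rw [div_mul_eq_mul_div, le_div_iff₀ (by positivity)]
        refine le_trans ?_ (mul_le_mul_of_nonneg_right hm (by positivity))
        convert h using 2
      have e3 : ((univ.filter (P1 V) ∪ univ.filter (P2 V)).card : ℝ) ≤
          ((univ.filter (P1 V)).card : ℝ) + ((univ.filter (P2 V)).card : ℝ) := by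
        exact_mod_cast card_union_le _ _
      rw [add_mul]
      linarith
    have hN : ((univ : Finset 𝒱).card : ℝ) ≤ 2 ^ (n + d * (n - d)) := by
      have h := h5 n d
      have h' : (univ : Finset 𝒱).card ≤ 2 ^ (n + d * (n - d)) := by
        rw [card_univ, ← Nat.card_eq_fintype_card]
        exact h
      exact_mod_cast h'
    have hsum : ((q ^ Fintype.card (E n) : ℕ) : ℝ) ≤
        ∑ V : 𝒱, ((univ.filter (P1 V) ∪ univ.filter (P2 V)).card : ℝ) := by
      exact_mod_cast hcard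
    have hsum2 := hsum.trans (sum_le_sum fun V _ => hb V)
    rw [sum_const, nsmul_eq_mul] at hsum2
    push_cast at hsum2
    have hpos : (0 : ℝ) < (q : ℝ) ^ Fintype.card (E n) := by positivity
    set Z : ℝ := 2 ^ (3 * k) * (1 - 1 / (2 * (q : ℝ))) ^ (2 ^ d - 1) +
      ((2 ^ (d + n)).choose (k + 1) : ℕ) / (q : ℝ) ^ (3 * (k + 1)) with hZ
    have hZ0 : 0 ≤ Z := by
      have hq1 : (1 : ℝ) ≤ q := by exact_mod_cast hq
      have : 0 ≤ 1 - 1 / (2 * (q : ℝ)) := by
        rw [sub_nonneg, div_le_one (by positivity)]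
        linarith
      positivity
    have h7 : (q : ℝ) ^ Fintype.card (E n) ≤
        (2 ^ (n + d * (n - d)) * Z) * (q : ℝ) ^ Fintype.card (E n) := by
      refine hsum2.trans ?_
      rw [← mul_assoc]
      exact mul_le_mul_of_nonneg_right (mul_le_mul_of_nonneg_right hN hZ0) hpos.le
    nlinarith
  obtain ⟨f, hf⟩ := key
  refine h4 n d k (univ.filter (fun x => x ≠ 0 ∧ (f x : ℕ) = 0)) (by simp) ?_
  intro V hV
  obtain ⟨g1, g2⟩ := hf ⟨V, hV⟩
  refine ⟨fun D hD => ?_, ?_⟩
  · have hlt' : D.card < ((nz V).filter (fun x => (f x : ℕ) = 0)).card :=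
      lt_of_le_of_lt hD (not_le.mp g1)
    obtain ⟨x, hx, hxD⟩ := exists_mem_notMem_of_card_lt_card hlt'
    rw [mem_filter, mem_nz] at hx
    exact ⟨x, hx.1.1, by simp [hx.1.2, hx.2], hxD⟩
  · rintro ⟨S, hS, hSk, hPD, hSA⟩
    refine g2 ⟨S, hS, hSk, hPD, fun T hT x hx => ?_⟩
    have := hSA T hT hx
    rw [mem_filter] at this
    exact this.2.2

end Pool.Agent.K3h66.VR
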